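import Pool.Agent.Lib.MP_0a8963_lc.F.Comb
import Pool.Agent.Lib.MP_f79ffc_lc.U.M.Card

/-!
Check names and cardinalities in the quotient models.
-/

namespace Pool.Agent.Lib.MP_0a8963_lc

open Cardinal Pool.Agent.Lib.MP_5d9fac_lc

variable {B : Type} [CompleteBooleanAlgebra B]

theorem chkP_eq_iff (x : PSet.{0}) : ∀ (y : PSet.{0}) (U : Ult B),
    cl U (chkP x) = cl U (chkP y) ↔ PSet.Equiv x y := by
  induction x with
  | mk α A ih =>
    rintro ⟨β, C⟩ U
    constructor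
    · intro h
      refine ⟨fun a => ?_, fun c => ?_⟩
      · have h1 : Mem U (cl U (chkP (A a))) (cl U (chkP ⟨β, C⟩)) :=
          h ▸ mem_mk (A := fun a => chkP (A a)) a U.top
        obtain ⟨c, W, -, -, h2⟩ := exists_child (fun _ => True) trivial h1
        exact ⟨c, (ih a _ W).1 h2⟩
      · have h1 : Mem U (cl U (chkP (C c))) (cl U (chkP ⟨α, A⟩)) :=
          h ▸ mem_mk (A := fun a => chkP (C a)) c U.top
        obtain ⟨a, W, -, -, h2⟩ := exists_child (fun _ => True) trivial h1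
        exact ⟨a, (ih a _ W).1 h2.symm⟩
    · rintro ⟨h1, h2⟩
      refine mod_ext U _ _ fun z => ⟨?_, ?_⟩
      · refine mem_mk_ind (fun _ => True) (fun U z => Mem U z (cl U (chkP ⟨β, C⟩))) trivial
          (fun a W _ _ => ?_) z
        obtain ⟨c, hc⟩ := h1 a
        rw [(ih a _ W).2 hc]
        exact mem_mk (A := fun a => chkP (C a)) c W.top
      · refine mem_mk_ind (fun _ => True) (fun U z => Mem U z (cl U (chkP ⟨α, A⟩))) trivial
          (fun c W _ _ => ?_) z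
        obtain ⟨a, ha⟩ := h2 c
        rw [← (ih a _ W).2 ha]
        exact mem_mk (A := fun a => chkP (A a)) a W.top

theorem chk_mk (x : PSet.{0}) (U : Ult B) : cl U (chk (ZFSet.mk x)) = cl U (chkP x) :=
  (chkP_eq_iff _ _ U).2 (ZFSet.exact (ZFSet.mk_out _))

theorem chk_inj {x y : ZFSet.{0}} {U : Ult B} (h : cl U (chk x) = cl U (chk y)) : x = y := by
  rw [← ZFSet.mk_out x, ← ZFSet.mk_out y]
  exact ZFSet.sound ((chkP_eq_iff _ _ U).1 h)

theorem chk_mem {x y : ZFSet.{0}} (h : x ∈ y) (U : Ult B) :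
    Mem U (cl U (chk x)) (cl U (chk y)) := by
  induction x using Quotient.inductionOn with
  | h x =>
  induction y using Quotient.inductionOn with
  | h y =>
    obtain ⟨β, C⟩ := y
    obtain ⟨c, hc⟩ := h
    show Mem U (cl U (chk (ZFSet.mk x))) (cl U (chk (ZFSet.mk ⟨β, C⟩)))
    rw [chk_mk, chk_mk, (chkP_eq_iff _ _ U).2 hc]
    exact mem_mk (A := fun a => chkP (C a)) c U.top

theorem chk_ind (P : Ult B → Prop) [Clopen P] (Q : ∀ U : Ult B, Mod U → Prop)
    [∀ n : Name B, Clopen fun U => Q U (cl U n)] {y : ZFSet.{0}} {U : Ult B}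
    (hp : P U) (H : ∀ x ∈ y, ∀ W : Ult B, P W → Q W (cl W (chk x))) :
    ∀ z, Mem U z (cl U (chk y)) → Q U z := by
  induction y using Quotient.inductionOn with
  | h y =>
    obtain ⟨β, C⟩ := y
    show ∀ z, Mem U z (cl U (chk (ZFSet.mk ⟨β, C⟩))) → Q U z
    rw [chk_mk]
    refine mem_mk_ind P Q hp fun c W hW _ => ?_
    rw [← chk_mk]
    exact H _ (ZFSet.mk_mem_iff.2 (PSet.Mem.mk C c)) W hW

theorem isUPair_chk {c a b : ZFSet.{0}} (h : ∀ x, x ∈ c ↔ x = a ∨ x = b) (U : Ult B) :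
    IsUPair (Mem U) (cl U (chk c)) (cl U (chk a)) (cl U (chk b)) := by
  intro z
  constructor
  · refine chk_ind (fun _ => True) (fun U z => z = cl U (chk a) ∨ z = cl U (chk b)) trivial
      (fun x hx W _ => ?_) z
    rcases (h x).1 hx with rfl | rfl
    · exact Or.inl rfl
    · exact Or.inr rfl
  · rintro (rfl | rfl)
    · exact chk_mem ((h a).2 (Or.inl rfl)) U
    · exact chk_mem ((h b).2 (Or.inr rfl)) U

theorem isOPair_chk (a b : ZFSet.{0}) (U : Ult B) :
    IsOPair (Mem U) (cl U (chk (ZFSet.pair a b))) (cl U (chk a)) (cl U (chk b)) :=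
  ⟨_, _, isUPair_chk (c := {a}) (by simp) U, isUPair_chk (c := {a, b}) (by simp) U,
    isUPair_chk (by simp [ZFSet.pair]) U⟩

theorem app_chk {R a b : ZFSet.{0}} (h : ZFSet.pair a b ∈ R) (U : Ult B) :
    App (Mem U) (cl U (chk R)) (cl U (chk a)) (cl U (chk b)) :=
  ⟨_, isOPair_chk a b U, chk_mem h U⟩

/-- no map of the extension, defined on a subset of `I`, sends `I` onto `K` -/
def NoOnto (B : Type) [CompleteBooleanAlgebra B] (I K : Type) : Prop :=
  ∀ g : I → K → B, (∀ i k k', k ≠ k' → g i k ⊓ g i k' = ⊥) → ∀ p : B, p ≠ ⊥ →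
    ¬ ∀ k, p ≤ ⨆ i, g i k

theorem noOnto_one (hB : NB B) {I K : Type} (hI : #I ≤ ℵ₀) (hK : ℵ_ 1 ≤ #K) : NoOnto B I K := by
  intro g hg p hp h
  obtain ⟨e⟩ := (le_def _ _).1 (mk_W1.le.trans hK)
  have := mk_le_aleph0_iff.1 hI
  rcases isEmpty_or_nonempty I with h0 | h0
  · exact hp (le_bot_iff.1 ((h (e (Classical.arbitrary _))).trans (iSup_of_empty _).le))
  obtain ⟨ν, hν⟩ := exists_surjective_nat I
  obtain ⟨q, a1, a2, s, a3⟩ := hB.dist (X := Option W1) (by
      rw [mk_option, mk_W1]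
      exact add_le_of_le (aleph0_le_aleph 1) le_rfl (one_le_aleph0.trans (aleph0_le_aleph 1)))
    (fun n x => x.elim (⨆ a, g (ν n) (e a))ᶜ fun a => g (ν n) (e a)) p hp fun n => by
      rw [iSup_option]
      exact le_top.trans compl_sup_eq_top.ge
  have h1 : ∃ a, some a ∉ Set.range s := by
    by_contra hc
    push Not at hc
    have h2 : #W1 ≤ #(Set.range s) := mk_le_of_injective (f := fun a => ⟨some a, hc a⟩)
      fun a b h => Option.some.inj (congrArg Subtype.val h)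
    rw [mk_W1] at h2
    exact (h2.trans (le_aleph0_iff_set_countable.2 (Set.countable_range s))).not_gt
      aleph0_lt_aleph_one
  obtain ⟨a, ha⟩ := h1
  obtain ⟨i, r, b1, b2, b3⟩ := pick a1 (a2.trans (h (e a)))
  obtain ⟨n, rfl⟩ := hν i
  have b4 := b2.trans (a3 n)
  rcases hs : s n with _ | a'
  · rw [hs] at b4
    exact b1 (le_bot_iff.1 ((le_inf (b3.trans (le_iSup (fun a => g (ν n) (e a)) a)) b4).trans
      inf_compl_eq_bot.le))
  · rw [hs] at b4
    obtain rfl := e.injective (eq_of_disj (hg _) b1 b3 b4)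
    exact ha ⟨n, hs⟩

theorem noOnto_four (hB : NB B) {I K : Type} (hI : #I ≤ ℵ_ 3) (hK : ℵ_ 3 < #K) :
    NoOnto B I K := by
  intro g hg p hp h
  obtain ⟨D, h1, h2⟩ := hB.small
  have h3 : ∀ k, ∃ w : I × D, w.2.1 ≠ ⊥ ∧ w.2.1 ≤ g w.1 k := by
    intro k
    obtain ⟨i, r, b1, -, b3⟩ := pick hp (h k)
    obtain ⟨d, c1, c2, c3⟩ := h2 r b1
    exact ⟨(i, ⟨d, c1⟩), c2, c3.trans b3⟩
  choose w w1 w2 using h3
  have h4 : #K ≤ #(I × D) := mk_le_of_injective (f := w) fun k k' e =>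
    eq_of_disj (hg _) (w1 k) (w2 k) (e ▸ w2 k')
  rw [mk_prod, lift_id, lift_id] at h4
  exact (h4.trans ((mul_le_mul' hI h1).trans (mul_eq_self (aleph0_le_aleph 3)).le)).not_gt hK

theorem no_bij {ξ : Ordinal.{0}} {K : Type} (H : NoOnto B ξ.ToType K) (x : K → Name B)
    (hx : ∀ (W : Ult B) k k', cl W (x k) = cl W (x k') → k = k') (G : Name B)
    (hG : ∀ (W : Ult B) k, Mem W (cl W (x k)) (cl W G)) (U : Ult B) :
    ¬ Equinum (Mem U) (cl U (ordN ξ)) (cl U G) := by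
  rintro ⟨f, hf⟩
  obtain ⟨f, rfl⟩ := cl_surj U f
  let P : Ult B → Prop := fun U => IsBij (Mem U) (cl U f) (cl U (ordN ξ)) (cl U G)
  have hPc : Clopen P := by unfold P; infer_instance
  let g : ξ.ToType → K → B := fun β k =>
    bv fun U => P U ∧ App (Mem U) (cl U f) (cl U (oN β)) (cl U (x k))
  have hg : ∀ β k (U : Ult B), U.In (g β k) ↔
      P U ∧ App (Mem U) (cl U f) (cl U (oN β)) (cl U (x k)) := fun β k U => in_bv _ U
  refine H g (fun β k k' hne => Ult.eq_bot_of fun U hU => ?_) (bv P)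
    (U.ne_bot ((in_bv P U).2 hf)) fun k => Ult.le_of fun W hW => ?_
  · rw [U.inf_iff, hg, hg] at hU
    exact hne (hx U _ _ (hU.1.1.1.app_unique hU.1.2 hU.2.2))
  · rw [in_bv] at hW
    obtain ⟨b, hb, -⟩ := hW.2 _ (hG W k)
    refine oN_ind P (fun U b => App (Mem U) (cl U f) b (cl U (x k)) → U.In (⨆ i, g i k)) hW ?_ b
      (hW.1.app_mem hb).1 hb
    intro i V hV h
    exact V.iSup_intro i ((hg i k V).2 ⟨hV, h⟩)

/-- a set that is the image of a subset of `o` is equinumerous with an ordinal `≤ o` -/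
theorem exists_equinum {o : Ordinal.{0}} {K : Type} (x : K → Name B) (F : o.ToType → K → B)
    (hF : ∀ s k k', F s k ⊓ F s k' ≤ Name.beq (x k) (x k')) {p : B} (hp : ∀ k, p ≤ ⨆ s, F s k)
    {U : Ult B} (hU : U.In p) : ∃ d, Mem U d (cl U (ordN (o + 1))) ∧
      Equinum (Mem U) d (cl U (Name.mk K x fun _ => ⊤)) := by
  have h1 : ∀ s, ∃ m : Name B, ∀ k, F s k ≤ ⨆ j, F s j ⊓ Name.beq m (x j) := by
    intro s
    obtain ⟨m, hm⟩ := exists_max_aux x (fun n => ⨆ j, F s j ⊓ Name.beq n (x j)) (by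
      intro a b
      rw [inf_iSup_eq]
      refine iSup_mono fun j => le_inf (inf_le_right.trans inf_le_left) ?_
      exact (inf_le_inf_left _ inf_le_right).trans (Name.beq_trans _ _ _))
    exact ⟨m, fun k => le_trans (le_iSup_of_le k (by rw [Name.beq_refl, inf_top_eq])) (hm k)⟩
  choose m hm using h1
  obtain ⟨d, h2, h3⟩ := MP_f79ffc_lc.St.exists_ord_equinum m (fun s => ⨆ k, F s k) U
  refine ⟨d, h2, ?_⟩
  rwa [mod_ext U (cl U (Name.mk K x fun _ => ⊤)) (cl U (Name.mk _ m fun s => ⨆ k, F s k))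
    fun z => ⟨?_, ?_⟩]
  · refine mem_mk_ind (fun W => W.In p)
      (fun U z => Mem U z (cl U (Name.mk _ m fun s => ⨆ k, F s k))) hU (fun k W hW _ => ?_) z
    refine iSup_elim (fun _ => True)
      (fun U => Mem U (cl U (x k)) (cl U (Name.mk _ m fun s => ⨆ k, F s k)))
      (W.mono (hp k) hW) trivial fun s W _ hs => ?_
    refine iSup_elim (fun W => W.In (F s k))
      (fun U => Mem U (cl U (x k)) (cl U (Name.mk _ m fun s => ⨆ k, F s k)))
      (W.mono (hm s k) hs) hs fun j W hs hj => ?_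
    rw [W.inf_iff, ← cl_eq] at hj
    rw [(cl_eq _ _ _).2 (W.mono (hF s k j) (W.inf hs hj.1)), ← hj.2]
    exact mem_mk (A := m) s (W.iSup_intro k hs)
  · refine mem_mk_ind (fun _ => True)
      (fun U z => Mem U z (cl U (Name.mk K x fun _ => ⊤))) trivial (fun s W _ hs => ?_) z
    refine iSup_elim (fun _ => True) (fun U => Mem U (cl U (m s)) (cl U (Name.mk K x fun _ => ⊤)))
      (W.mono (iSup_le (hm s)) hs) trivial fun j W _ hj => ?_
    rw [W.inf_iff, ← cl_eq] at hj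
    rw [hj.2]
    exact mem_mk (A := x) j W.top

theorem equinum_mk {o : Ordinal.{0}} {K : Type} (x : K → Name B)
    (hx : ∀ (W : Ult B) k k', cl W (x k) = cl W (x k') → k = k') (F : o.ToType → K → B)
    (hF : ∀ s k k', k ≠ k' → F s k ⊓ F s k' = ⊥) (hp : ∀ k, ⊤ ≤ ⨆ s, F s k)
    (H : ∀ ξ < o, NoOnto B ξ.ToType K) (U : Ult B) :
    Equinum (Mem U) (cl U (ordN o)) (cl U (Name.mk K x fun _ => ⊤)) := by
  obtain ⟨d, h1, h2⟩ := exists_equinum x F (fun s k k' => by
    by_cases h : k = k'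
    · rw [h, Name.beq_refl]; exact le_top
    · rw [hF s k k' h]; exact bot_le) hp U.top
  rcases (isSuc_ordN o U d).1 h1 with h | rfl
  · exact (ord_ind (fun _ => True)
      (fun U d => ¬ Equinum (Mem U) d (cl U (Name.mk K x fun _ => ⊤))) trivial
      (fun ξ hξ W _ => no_bij (H ξ hξ) x hx _ (fun W k => mem_mk (A := x) k W.top) W) d h h2).elim
  · exact h2

theorem isCard_of {o : Ordinal.{0}} (H : ∀ ξ < o, NoOnto B ξ.ToType o.ToType) (U : Ult B) :
    IsCard (Mem U) (cl U (ordN o)) :=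
  ⟨isOrd_ordN _ U, ord_ind (fun _ => True) (fun U b => ¬ Equinum (Mem U) b (cl U (ordN o))) trivial
    fun ξ hξ W _ => no_bij (H ξ hξ) oN (fun _ _ _ h => oN_inj h) _ (fun W k => oN_mem k W) W⟩

theorem card_le_of_lt {ξ o : Ordinal.{0}} (h : ξ < Ordinal.omega (o + 1)) :
    #ξ.ToType ≤ ℵ_ o := by
  rw [mk_toType, ← Order.lt_succ_iff, succ_aleph, ← lt_ord, ord_aleph]
  exact h

theorem noOnto_lt_one (hB : NB B) {K : Type} (hK : ℵ_ 1 ≤ #K) {ξ : Ordinal.{0}}
    (h : ξ < Ordinal.omega 1) : NoOnto B ξ.ToType K :=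
  noOnto_one hB (by simpa using card_le_of_lt (o := 0) (by simpa using h)) hK

theorem three_add_one : (3 : Ordinal.{0}) + 1 = 4 := by norm_num

theorem noOnto_lt_four (hB : NB B) {K : Type} (hK : #K = ℵ_ 4) {ξ : Ordinal.{0}}
    (h : ξ < Ordinal.omega 4) : NoOnto B ξ.ToType K :=
  noOnto_four hB (card_le_of_lt (by rwa [three_add_one]))
    (hK ▸ aleph_lt_aleph.2 (three_add_one ▸ lt_add_one _))

theorem equinum_one (hB : NB B) (hCH : (2 : Cardinal.{0}) ^ ℵ₀ = ℵ_ 1) {K : Type}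
    (h1 : ℵ_ 1 ≤ #K) (h3 : #K ≤ ℵ_ 3) (x : K → Name B)
    (hx : ∀ (W : Ult B) k k', cl W (x k) = cl W (x k') → k = k') (U : Ult B) :
    Equinum (Mem U) (cl U (ordN (Ordinal.omega 1))) (cl U (Name.mk K x fun _ => ⊤)) := by
  obtain ⟨F, h4, h5⟩ := collapse hB hCH h3
  exact equinum_mk x hx F h4 h5 (fun _ h => noOnto_lt_one hB h1 h) U

theorem equinum_four (hB : NB B) {K : Type} (hK : #K = ℵ_ 4) (x : K → Name B)
    (hx : ∀ (W : Ult B) k k', cl W (x k) = cl W (x k') → k = k') (U : Ult B) :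
    Equinum (Mem U) (cl U (ordN (Ordinal.omega 4))) (cl U (Name.mk K x fun _ => ⊤)) := by
  obtain ⟨e⟩ : Nonempty ((Ordinal.omega.{0} 4).ToType ≃ K) := by
    rw [← Cardinal.eq, mk_toType, Ordinal.card_omega, hK]
  refine equinum_mk x hx (fun s k => ⨆ _ : e s = k, ⊤) (fun s k k' h => ?_)
    (fun k => le_iSup₂_of_le (e.symm k) (e.apply_symm_apply k) le_rfl)
    (fun _ h => noOnto_lt_four hB hK h) U
  by_cases h1 : e s = k
  · simp [h1, h]
  · simp [h1]

theorem isCard_one (hB : NB B) (U : Ult B) : IsCard (Mem U) (cl U (ordN (Ordinal.omega 1))) :=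
  isCard_of (fun _ h => noOnto_lt_one hB mk_W1.ge h) U

theorem isCard_four (hB : NB B) (U : Ult B) : IsCard (Mem U) (cl U (ordN (Ordinal.omega 4))) :=
  isCard_of (fun _ h => noOnto_lt_four hB (by rw [mk_toType, Ordinal.card_omega]) h) U

theorem isSuccCard_of {a b : Ordinal.{0}} (hab : a < b)
    (ha : ∀ U : Ult B, IsCard (Mem U) (cl U (ordN a)))
    (hb : ∀ U : Ult B, IsCard (Mem U) (cl U (ordN b)))
    (H : ∀ ξ, a < ξ → ξ < b → ∀ U : Ult B, Equinum (Mem U) (cl U (ordN a)) (cl U (ordN ξ)))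
    (U : Ult B) : IsSuccCard (Mem U) (cl U (ordN b)) (cl U (ordN a)) := by
  refine ⟨ha U, hb U, ordN_mem hab U, fun t ht hνt => ?_⟩
  refine (sub_or_mem _ t ht.1).resolve_right fun h => ?_
  refine ord_ind (fun _ => True)
    (fun U t => IsCard (Mem U) t → ¬ Mem U (cl U (ordN a)) t) trivial ?_ t h ht hνt
  intro ξ hξ W _ hc hm
  exact hc.2 _ hm (H ξ (ordN_mem_iff.1 hm) hξ W)

theorem isSuccCard_one (hB : NB B) (U : Ult B) :
    IsSuccCard (Mem U) (cl U (ordN (Ordinal.omega 1))) (cl U (ordN Ordinal.omega0)) := by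
  refine isSuccCard_of Ordinal.omega0_lt_omega_one isCard_omega (isCard_one hB)
    (fun ξ h1 h2 W => equinum_ordN ?_ W) U
  refine le_antisymm (Ordinal.card_le_card h1.le) ?_
  simpa using card_le_of_lt (o := 0) (by simpa using h2)

theorem isSuccCard_four (hB : NB B) (hCH : (2 : Cardinal.{0}) ^ ℵ₀ = ℵ_ 1) (U : Ult B) :
    IsSuccCard (Mem U) (cl U (ordN (Ordinal.omega 4))) (cl U (ordN (Ordinal.omega 1))) := by
  refine isSuccCard_of (Ordinal.omega_lt_omega.2 (by norm_num)) (isCard_one hB) (isCard_four hB)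
    (fun ξ h1 h2 W => ?_) U
  have h3 := equinum_one hB hCH (K := ξ.ToType) (by
    rw [mk_toType, ← Ordinal.card_omega]
    exact Ordinal.card_le_card h1.le) (card_le_of_lt (by rwa [three_add_one])) oN
    (fun _ _ _ h => oN_inj h) W
  rwa [mod_ext W (cl W (ordN ξ)) (cl W (Name.mk ξ.ToType oN fun _ => ⊤)) fun z =>
    ⟨oN_ind (fun _ => True) (fun U z => Mem U z (cl U (Name.mk ξ.ToType oN fun _ => ⊤))) trivial
      (fun i W _ => mem_mk (A := oN) i W.top) z, setN_sub (fun _ => ⊤) W z⟩]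

end Pool.Agent.Lib.MP_0a8963_lc
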