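import Pool.Agent.Lib.MP_0a8963_lc.F.NB

/-!
Boolean combinatorics: the collapse of `ω₃` and the colouring of the traces.
-/

namespace Pool.Agent.Lib.MP_0a8963_lc

open Cardinal

/-- `ω₁` as a well-ordered type -/
abbrev W1 : Type := (Ordinal.omega.{0} 1).ToType

/-- `ω₃` as a well-ordered type -/
abbrev W3 : Type := (Ordinal.omega.{0} 3).ToType

theorem mk_W1 : #W1 = ℵ_ 1 := by rw [mk_toType, Ordinal.card_omega]

theorem mk_W3 : #W3 = ℵ_ 3 := by rw [mk_toType, Ordinal.card_omega]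

instance : Nonempty W1 := by
  rw [← mk_ne_zero_iff, mk_W1]
  exact (aleph_pos 1).ne'

theorem mk_Iic_W2 (a : W2) : #(Set.Iic a) ≤ ℵ_ 1 := by
  rw [← Set.Iio_insert]
  exact mk_insert_le.trans (add_le_of_le (aleph0_le_aleph 1) (mk_Iio_W2 a)
    (one_le_aleph0.trans (aleph0_le_aleph 1)))

theorem mk_Iio_W3 (a : W3) : #(Set.Iio a) ≤ ℵ_ 2 := by
  have h : (Ordinal.omega.{0} 3) = (ℵ_ 3 : Cardinal.{0}).ord := (ord_aleph 3).symm
  have h1 := mk_Iio_lt (α := W3) a (by rw [mk_W3, Ordinal.type_toType, h])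
  have h2 : (ℵ_ 3 : Cardinal.{0}) = Order.succ (ℵ_ 2) := by
    rw [succ_aleph, two_add_one_eq_three]
  rwa [mk_W3, h2, Order.lt_succ_iff] at h1

theorem exists_injOn {α β : Type} [Nonempty β] {A : Set α} (h : #A ≤ #β) :
    ∃ e : α → β, Set.InjOn e A := by
  obtain ⟨e⟩ := (le_def _ _).1 h
  refine ⟨Function.extend Subtype.val e fun _ => Classical.arbitrary β, fun a ha b hb hab => ?_⟩
  have h1 := Subtype.val_injective.extend_apply e (fun _ => Classical.arbitrary β) ⟨a, ha⟩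
  have h2 := Subtype.val_injective.extend_apply e (fun _ => Classical.arbitrary β) ⟨b, hb⟩
  exact congrArg Subtype.val (e.injective (h1.symm.trans (hab.trans h2)))

theorem exists_reps {α β K : Type} [Nonempty α] (φ : α → β) (h : #(Set.range φ) ≤ #K) :
    ∃ (g : K → α) (i : α → K), ∀ a, φ (g (i a)) = φ a := by
  obtain ⟨e⟩ := (le_def _ _).1 h
  refine ⟨Function.invFun fun a => e ⟨φ a, a, rfl⟩, fun a => e ⟨φ a, a, rfl⟩, fun a => ?_⟩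
  exact congrArg Subtype.val (e.injective
    (Function.invFun_eq (f := fun a => e ⟨φ a, a, rfl⟩) ⟨a, rfl⟩))

/-- `ℵ₃` eventually different functions on `ω₂` -/
theorem exists_evdiff {K : Type} (hK : #K ≤ ℵ_ 3) : ∃ f : K → W2 → W2,
    ∀ ξ ζ, ξ ≠ ζ → ∃ β, ∀ a, β ≤ a → f ξ a ≠ f ζ a := by
  obtain ⟨e⟩ := (le_def _ _).1 (hK.trans mk_W3.ge)
  choose c hc using fun ξ : W3 => exists_injOn ((mk_Iio_W3 ξ).trans mk_W2.ge)
  let F : W3 → W2 → W2 := (wellFounded_lt (α := W3)).fix fun ξ ih a =>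
    Classical.epsilon fun y => y ∉ {y | ∃ ζ, ∃ h : ζ < ξ, c ξ ζ ≤ a ∧ ih ζ h a = y}
  have hF : ∀ ξ a, F ξ a ∉ {y | ∃ ζ, ∃ _ : ζ < ξ, c ξ ζ ≤ a ∧ F ζ a = y} := by
    intro ξ a
    have h1 : F ξ a = Classical.epsilon
        fun y => y ∉ {y | ∃ ζ, ∃ _ : ζ < ξ, c ξ ζ ≤ a ∧ F ζ a = y} :=
      congrFun ((wellFounded_lt (α := W3)).fix_eq (C := fun _ => W2 → W2) _ ξ) a
    rw [h1]
    refine Classical.epsilon_spec (exists_notMem ?_)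
    have h2 : {y | ∃ ζ, ∃ _ : ζ < ξ, c ξ ζ ≤ a ∧ F ζ a = y} =
        (fun ζ => F ζ a) '' {ζ | ζ < ξ ∧ c ξ ζ ≤ a} := by
      ext y
      exact ⟨fun ⟨ζ, h1, h2, h3⟩ => ⟨ζ, ⟨h1, h2⟩, h3⟩, fun ⟨ζ, h1, h3⟩ => ⟨ζ, h1.1, h1.2, h3⟩⟩
    rw [h2]
    refine mk_image_le.trans (le_trans ?_ (mk_Iic_W2 a))
    exact mk_le_of_injective (f := fun ζ => ⟨c ξ ζ.1, ζ.2.2⟩) fun ζ ζ' h =>
      Subtype.ext (hc ξ ζ.2.1 ζ'.2.1 (congrArg Subtype.val h))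
  refine ⟨fun ξ => F (e ξ), fun ξ ζ h => ?_⟩
  rcases lt_or_gt_of_ne (e.injective.ne h) with h1 | h1
  · exact ⟨c _ (e ξ), fun a ha h2 => hF (e ζ) a ⟨_, h1, ha, h2⟩⟩
  · exact ⟨c _ (e ζ), fun a ha h2 => hF (e ξ) a ⟨_, h1, ha, h2.symm⟩⟩

/-- few cotraces for the branches of a tree -/
theorem cotrace_le {J Z : Type} (b : J → Z → Prop) (lev : Z → Ordinal.{0})
    (tree : ∀ j z z', b j z → b j z' → lev z ≤ lev z' → ∀ i, b i z' → b i z) (H : Set J)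
    (hH : #H ≤ ℵ_ 1) : #(Set.range fun z => {j ∈ H | b j z}) ≤ ℵ_ 1 := by
  let g : H × H → Set J := fun w => {i ∈ H | ∀ z, b w.1 z → b w.2 z → b i z}
  have h1 : (Set.range fun z => {j ∈ H | b j z}) ⊆ insert ∅ (Set.range g) := by
    rintro _ ⟨z, rfl⟩
    rcases Set.eq_empty_or_nonempty {j ∈ H | b j z} with h | ⟨j, hj, hjz⟩
    · exact Or.inl h
    refine Or.inr ?_
    by_cases hL : ∃ o, ∃ z', lev z' = o ∧ b j z' ∧ ∃ i ∈ H, b i z ∧ ¬ b i z'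
    · obtain ⟨_, ⟨z', rfl, h2, i, hi, h3, h4⟩, hmin⟩ := wellFounded_lt.has_min
        {o | ∃ z', lev z' = o ∧ b j z' ∧ ∃ i ∈ H, b i z ∧ ¬ b i z'} hL
      refine ⟨(⟨j, hj⟩, ⟨i, hi⟩), Set.ext fun k => ⟨fun hk => ⟨hk.1, hk.2 z hjz h3⟩,
        fun hk => ⟨hk.1, fun z'' h5 h6 => ?_⟩⟩⟩
      by_contra h7
      exact h4 (tree j z' z'' h2 h5 (not_lt.1 (hmin _ ⟨z'', rfl, h5, k, hk.1, hk.2, h7⟩)) i h6)
    · refine ⟨(⟨j, hj⟩, ⟨j, hj⟩), Set.ext fun k => ⟨fun hk => ⟨hk.1, hk.2 z hjz hjz⟩,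
        fun hk => ⟨hk.1, fun z'' h5 _ => ?_⟩⟩⟩
      by_contra h7
      exact hL ⟨_, z'', rfl, h5, k, hk.1, hk.2, h7⟩
  refine (mk_le_mk_of_subset h1).trans (mk_insert_le.trans (add_le_of_le (aleph0_le_aleph 1)
    (mk_range_le.trans ?_) (one_le_aleph0.trans (aleph0_le_aleph 1))))
  rw [mk_prod, lift_id]
  exact (mul_le_mul' hH hH).trans (mul_eq_self (aleph0_le_aleph 1)).le

variable {B : Type} [CompleteBooleanAlgebra B]

theorem pick {ι : Sort*} {f : ι → B} {p : B} (hp : p ≠ ⊥) (h : p ≤ ⨆ i, f i) :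
    ∃ i q, q ≠ ⊥ ∧ q ≤ p ∧ q ≤ f i := by
  by_contra hc
  push Not at hc
  apply hp
  rw [← inf_eq_left.2 h, inf_iSup_eq, iSup_eq_bot]
  intro i
  by_contra h1
  exact hc i _ h1 inf_le_left inf_le_right

theorem le_dense {p c : B} (h : ∀ q, q ≠ ⊥ → q ≤ p → ∃ r, r ≠ ⊥ ∧ r ≤ q ∧ r ≤ c) : p ≤ c := by
  by_contra hc
  obtain ⟨r, h1, h2, h3⟩ := h (p ⊓ cᶜ) (fun h0 => hc (by rwa [← sdiff_eq, sdiff_eq_bot_iff] at h0))
    inf_le_left
  exact h1 (le_bot_iff.1 ((le_inf h3 (h2.trans inf_le_right)).trans inf_compl_eq_bot.le))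

theorem eq_of_disj {ι : Type} {f : ι → B} (hd : ∀ a b, a ≠ b → f a ⊓ f b = ⊥) {q : B} {a b : ι}
    (hq : q ≠ ⊥) (ha : q ≤ f a) (hb : q ≤ f b) : a = b := by
  by_contra h
  exact hq (le_bot_iff.1 ((le_inf ha hb).trans (hd a b h).le))

theorem pick_seq {h : ℕ → W2 → B} (h3 : ∀ a, ⊤ ≤ ⨆ n, ⨆ b, ⨆ _ : a ≤ b, h n b) (a : W2) {p : B}
    (hp : p ≠ ⊥) : ∃ n b q, a ≤ b ∧ q ≠ ⊥ ∧ q ≤ p ∧ q ≤ h n b := by
  obtain ⟨n, q1, a1, a2, a3⟩ := pick hp (le_top.trans (h3 a))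
  obtain ⟨b, q2, b1, b2, b3⟩ := pick a1 a3
  obtain ⟨hb, q3, c1, c2, c3⟩ := pick b1 b3
  exact ⟨n, b, q3, hb, c1, c2.trans (b2.trans a2), c3⟩

/-- a map from a subset of `ω₁` onto any ground set of size at most `ℵ₃` -/
theorem collapse (hB : NB B) (hCH : (2 : Cardinal.{0}) ^ ℵ₀ = ℵ_ 1) {K : Type} (hK : #K ≤ ℵ_ 3) :
    ∃ F : W1 → K → B, (∀ s ξ ζ, ξ ≠ ζ → F s ξ ⊓ F s ζ = ⊥) ∧ ∀ ξ, ⊤ ≤ ⨆ s, F s ξ := by
  obtain ⟨h, h1, h2, h3⟩ := hB.seq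
  obtain ⟨f, hf⟩ := exists_evdiff hK
  choose e he using fun b : W2 => exists_injOn ((mk_Iic_W2 b).trans mk_W1.ge)
  have hX : #(ℕ × W1) ≤ ℵ_ 1 := by
    rw [mk_prod, lift_id, lift_id, mk_nat, mk_W1]
    exact (mul_le_mul' (aleph0_le_aleph 1) le_rfl).trans (mul_eq_self (aleph0_le_aleph 1)).le
  have hS : #(ℕ → ℕ × W1) ≤ #W1 := by
    rw [← power_def, mk_nat, mk_W1]
    refine (power_le_power_right hX).trans ?_
    rw [← hCH, ← power_mul, aleph0_mul_aleph0]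
  obtain ⟨g, i, hgi⟩ := exists_reps (fun s : ℕ → ℕ × W1 => s) (mk_range_le.trans hS)
  let m : K → ℕ → ℕ × W1 → B := fun ξ n x =>
    ⨆ t : {t : W2 × W2 // f ξ t.1 ≤ t.2 ∧ e t.2 (f ξ t.1) = x.2}, h n t.1.1 ⊓ h x.1 t.1.2
  refine ⟨fun s ξ => ⨅ n, m ξ n (g s n), fun s ξ ζ hne => ?_, fun ξ => le_dense fun p hp _ => ?_⟩
  · by_contra hc
    obtain ⟨β, hβ⟩ := hf ξ ζ hne
    obtain ⟨n, a, q, a0, a1, a2, a3⟩ := pick_seq h3 β hc
    obtain ⟨⟨⟨a', b⟩, t1, t2⟩, q1, b1, b2, b3⟩ :=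
      pick a1 ((a2.trans inf_le_left).trans (iInf_le _ n))
    obtain ⟨⟨⟨a'', b'⟩, s1, s2⟩, q2, c1, c2, c3⟩ :=
      pick b1 (((b2.trans a2).trans inf_le_right).trans (iInf_le _ n))
    obtain rfl := eq_of_disj (h2 n) b1 (b2.trans a3) (b3.trans inf_le_left)
    obtain rfl := eq_of_disj (h2 n) c1 ((c2.trans b2).trans a3) (c3.trans inf_le_left)
    obtain rfl := eq_of_disj (h2 _) c1 ((c2.trans b3).trans inf_le_right) (c3.trans inf_le_right)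
    exact hβ a a0 (he b t1 s1 (t2.trans s2.symm))
  · obtain ⟨q, a1, a2, s, a3⟩ := hB.dist hX (m ξ) p hp fun n => le_dense fun r hr _ => by
      obtain ⟨a, r1, b1, b2, b3⟩ := pick hr (le_top.trans (h1 n))
      obtain ⟨k, b, r2, c0, c1, c2, c3⟩ := pick_seq h3 (f ξ a) b1
      exact ⟨r2, c1, c2.trans b2, le_iSup_of_le (k, e b (f ξ a))
        (le_iSup_of_le ⟨(a, b), c0, rfl⟩ (le_inf (c2.trans b3) c3))⟩
    refine ⟨q, a1, a2, le_iSup_of_le (i s) (le_iInf fun n => ?_)⟩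
    rw [show g (i s) = s from hgi s]
    exact a3 n

/-- colouring of the traces on a new countable set -/
theorem colour (hB : NB B) {J Z : Type} [Nonempty J] [Nonempty Z] (b : J → Z → Prop)
    (K1 : ∀ Y : Set Z, #Y ≤ ℵ_ 2 → #(Set.range fun j => {z ∈ Y | b j z}) ≤ ℵ_ 2)
    (K2 : ∀ H : Set J, #H ≤ ℵ_ 1 → #(Set.range fun z => {j ∈ H | b j z}) ≤ ℵ_ 1)
    (K3 : ∀ Y : Set Z, Y.Countable → (Set.range fun j => {z ∈ Y | b j z}).Countable)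
    (y : ℕ → Option Z → B) (hy : ∀ n x x', x ≠ x' → y n x ⊓ y n x' = ⊥) {p : B} (hp : p ≠ ⊥)
    (hpy : ∀ n, p ≤ ⨆ x, y n x) : ∃ q, q ≠ ⊥ ∧ q ≤ p ∧ ∃ c : J → ℕ × ℕ → B,
      (∀ j, q ≤ ⨆ t, c j t) ∧
      ∀ j j' t n z, b j z → ¬ b j' z → q ⊓ c j t ⊓ c j' t ⊓ y n (some z) = ⊥ := by
  obtain ⟨h, -, h2, h3⟩ := hB.seq
  obtain ⟨q, q1, q2, Y, hY, q3⟩ := hB.cover y p hp hpy
  obtain ⟨g, i, hgi⟩ := exists_reps _ ((K1 (some ⁻¹' Y)
    ((mk_preimage_of_injective _ _ (Option.some_injective Z)).trans hY)).trans mk_W2.ge)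
  choose k cl hk using fun β : W2 => exists_reps _
    ((K2 (g '' Set.Iic β) (mk_image_le.trans (mk_Iic_W2 β))).trans mk_W1.ge)
  choose g' κ hκ using fun (β : W2) (s : ℕ → W1) => exists_reps (K := ℕ) _
    ((le_aleph0_iff_set_countable.2 (K3 _ (Set.countable_range fun m => k β (s m)))).trans
      mk_nat.ge)
  let cl' : W2 → Option Z → W1 := fun β x => x.elim (Classical.arbitrary _) (cl β)
  let M : W2 → ℕ → W1 → B := fun β m a => ⨆ x : {x // cl' β x = a}, y m x.1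
  refine ⟨q, q1, q2, fun j t => ⨆ w : {w : W2 × (ℕ → W1) // i j ≤ w.1 ∧
    κ w.1 w.2 (g (i j)) = t.2}, h t.1 w.1.1 ⊓ ⨅ m, M w.1.1 m (w.1.2 m),
    fun j => le_dense fun r hr hrq => ?_, fun j j' t n z hz hz' => ?_⟩
  · obtain ⟨n, β, r1, a0, a1, a2, a3⟩ := pick_seq h3 (i j) hr
    obtain ⟨r2, b1, b2, s, b3⟩ := hB.dist mk_W1.le (M β) r1 a1 fun m =>
      (((a2.trans hrq).trans q2).trans (hpy m)).trans (iSup_le fun x =>
        le_iSup_of_le (cl' β x) (le_iSup_of_le ⟨x, rfl⟩ le_rfl))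
    exact ⟨r2, b1, b2.trans a2, le_iSup_of_le (n, κ β s (g (i j)))
      (le_iSup_of_le ⟨(β, s), a0, rfl⟩ (le_inf (b2.trans a3) (le_iInf b3)))⟩
  · by_contra hc
    obtain ⟨⟨⟨β, s⟩, t1, t2⟩, r1, a1, a2, a3⟩ :=
      pick hc (inf_le_left.trans (inf_le_left.trans inf_le_right))
    obtain ⟨⟨⟨β', s'⟩, s1, s2⟩, r, b1, b2, b3⟩ :=
      pick a1 (a2.trans (inf_le_left.trans inf_le_right))
    have b4 := b2.trans a3
    have b5 := b2.trans a2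
    obtain rfl := eq_of_disj (h2 _) b1 (b4.trans inf_le_left) (b3.trans inf_le_left)
    obtain rfl : s = s' := by
      funext m
      obtain ⟨⟨x, hx⟩, r1, c1, c2, c3⟩ := pick b1 ((b4.trans inf_le_right).trans (iInf_le _ m))
      obtain ⟨⟨x', hx'⟩, r2, d1, d2, d3⟩ :=
        pick c1 (c2.trans ((b3.trans inf_le_right).trans (iInf_le _ m)))
      obtain rfl : x = x' := eq_of_disj (hy m) d1 (d2.trans c3) d3
      exact hx.symm.trans hx'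
    have e1 : cl β z = s n := by
      obtain ⟨⟨x, hx⟩, r1, c1, c2, c3⟩ := pick b1 ((b4.trans inf_le_right).trans (iInf_le _ n))
      obtain rfl : x = some z := eq_of_disj (hy n) c1 c3 (c2.trans (b5.trans inf_le_right))
      exact hx
    have e2 : z ∈ some ⁻¹' Y := by
      obtain ⟨x, r1, c1, c2, c3⟩ := pick b1
        ((b5.trans (inf_le_left.trans (inf_le_left.trans inf_le_left))).trans (q3 n))
      obtain ⟨hx, r2, d1, d2, d3⟩ := pick c1 c3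
      obtain rfl : x = some z :=
        eq_of_disj (hy n) d1 d3 (d2.trans (c2.trans (b5.trans inf_le_right)))
      exact hx
    have f1 : ∀ j, b j z ↔ b (g (i j)) z := fun j =>
      ⟨fun h => ((Set.ext_iff.1 (hgi j) z).2 ⟨e2, h⟩).2,
        fun h => ((Set.ext_iff.1 (hgi j) z).1 ⟨e2, h⟩).2⟩
    have f2 : ∀ a, a ≤ β → (b (g a) z ↔ b (g a) (k β (s n))) := fun a ha => by
      rw [← e1]
      exact ⟨fun h => ((Set.ext_iff.1 (hk β z) _).2 ⟨⟨a, ha, rfl⟩, h⟩).2,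
        fun h => ((Set.ext_iff.1 (hk β z) _).1 ⟨⟨a, ha, rfl⟩, h⟩).2⟩
    have f3 := (hκ β s (g (i j))).symm.trans
      ((congrArg (fun l => {z ∈ Set.range fun m => k β (s m) | b (g' β s l) z})
        (t2.trans s2.symm)).trans (hκ β s (g (i j'))))
    exact hz' ((f1 j').2 ((f2 _ s1).2
      ((Set.ext_iff.1 f3 _).1 ⟨⟨n, rfl⟩, (f2 _ t1).1 ((f1 j).1 hz)⟩).2))

end Pool.Agent.Lib.MP_0a8963_lc
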