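import Pool.Agent.Lib.MP_5d9fac_lc.MA
import Pool.Agent.Lib.MP_5d9fac_lc.Axioms

/-!
Miller-type Namba forcing, check names, and the property of a binary relation that has to be
forced.
-/

namespace Pool.Agent.Lib.MP_0a8963_lc

open Cardinal Pool.Agent.Lib.MP_5d9fac_lc

universe u

/-- The ordinal `ω₂` as a well-ordered type. -/
abbrev W2 : Type := (Ordinal.omega.{0} 2).ToType

/-- Miller-type Namba forcing: nonempty trees `T ⊆ ω₂^{<ω}`, closed under initial segments, in
which every node has an extension with `ℵ₂` immediate successors in `T`. -/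
structure Nm where
  T : Set (List W2)
  ne : T.Nonempty
  down : ∀ η ν : List W2, η <+: ν → ν ∈ T → η ∈ T
  split : ∀ η ∈ T, ∃ ν ∈ T, η <+: ν ∧ #{a : W2 | ν ++ [a] ∈ T} = ℵ_ 2

/-- The order is inclusion. -/
instance : Preorder Nm := Preorder.lift Nm.T

/-- check name of a pre-set -/
def chkP {B : Type} [CompleteBooleanAlgebra B] : PSet.{0} → Name B
  | ⟨α, A⟩ => Name.mk α (fun a => chkP (A a)) fun _ => ⊤

/-- The check name of a set of the ground universe. -/
noncomputable def chk {B : Type} [CompleteBooleanAlgebra B] (x : ZFSet.{0}) : Name B :=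
  chkP x.out

variable {M : Type u} (E : M → M → Prop)

/-- `y` is countable: equinumerous with a subset of `w` (which will be `ω`). -/
def Ctbl (w y : M) : Prop := ∃ A, Sub E A w ∧ Equinum E A y

/-- In the structure given by `M` and `E`: the binary relation `R` has a domain `D` of cardinality `ℵ₂` and a
range `N` of cardinality `ℵ₁`, for every countable set `y` the family
`{R[x] ∩ y : x ∈ D}` is countable, and different points of `D` have different sections. -/
def Good (R : M) : Prop :=
  ∃ w w₁ w₂ D N, IsOmega E w ∧ IsSuccCard E w₁ w ∧ IsSuccCard E w₂ w₁ ∧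
    (∀ x, E x D ↔ ∃ z, App E R x z) ∧ (∀ z, E z N ↔ ∃ x, App E R x z) ∧
    Equinum E w₂ D ∧ Equinum E w₁ N ∧
    (∀ y, Ctbl E w y → ∃ F, Ctbl E w F ∧
      ∀ t, E t F ↔ ∃ x, E x D ∧ ∀ z, E z t ↔ (App E R x z ∧ E z y)) ∧
    ∀ x x', E x D → E x' D → (∀ z, App E R x z ↔ App E R x' z) → x = x'

end Pool.Agent.Lib.MP_0a8963_lc
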