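import Pool.Agent.Lib.MP_0a8963_lc.F.Chk

/-!
The forcing side: a thin family of branches of the ground universe is forced to be `Good`.
-/

namespace Pool.Agent.Lib.MP_0a8963_lc

open Cardinal Pool.Agent.Lib.MP_5d9fac_lc

/-- What the ground side has to deliver about `R`. -/
structure Fam (R : ZFSet.{0}) where
  J : Type
  Z : Type
  u : J → ZFSet.{0}
  v : Z → ZFSet.{0}
  b : J → Z → Prop
  uinj : Function.Injective u
  vinj : Function.Injective v
  mem : ∀ p, p ∈ R ↔ ∃ j z, b j z ∧ p = ZFSet.pair (u j) (v z)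
  cJ : #J = ℵ_ 4
  cZ : ℵ_ 1 ≤ #Z
  cZ' : #Z ≤ ℵ_ 3
  dom : ∀ j, ∃ z, b j z
  ran : ∀ z, ∃ j, b j z
  dist : ∀ j j', (∀ z, b j z ↔ b j' z) → j = j'
  K1 : ∀ Y : Set Z, #Y ≤ ℵ_ 2 → #(Set.range fun j => {z ∈ Y | b j z}) ≤ ℵ_ 2
  K2 : ∀ H : Set J, #H ≤ ℵ_ 1 → #(Set.range fun z => {j ∈ H | b j z}) ≤ ℵ_ 1
  K3 : ∀ Y : Set Z, Y.Countable → (Set.range fun j => {z ∈ Y | b j z}).Countable

variable {B : Type} [CompleteBooleanAlgebra B] {R : ZFSet.{0}}

instance (x y : Name B) : Clopen fun U => Ctbl (Mem U) (cl U x) (cl U y) := by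
  unfold Ctbl; infer_instance

namespace Fam

variable (F : Fam R)

theorem app {j : F.J} {z : F.Z} (h : F.b j z) (U : Ult B) :
    App (Mem U) (cl U (chk R)) (cl U (chk (F.u j))) (cl U (chk (F.v z))) :=
  app_chk ((F.mem _).2 ⟨j, z, h, rfl⟩) U

theorem app_ind (P : Ult B → Prop) [Clopen P] (Q : ∀ U : Ult B, Mod U → Mod U → Prop)
    [∀ n m : Name B, Clopen fun U => Q U (cl U n) (cl U m)] {U : Ult B} (hp : P U)
    (H : ∀ j z (W : Ult B), P W → F.b j z → Q W (cl W (chk (F.u j))) (cl W (chk (F.v z)))) :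
    ∀ a c, App (Mem U) (cl U (chk R)) a c → Q U a c := by
  rintro a c ⟨p, hp1, hp2⟩
  refine chk_ind P (fun U p => ∀ a c, IsOPair (Mem U) p a c → Q U a c) hp ?_ p hp2 a c hp1
  intro x hx W hW a c hac
  obtain ⟨j, z, h, rfl⟩ := (F.mem x).1 hx
  obtain ⟨rfl, rfl⟩ := opair_inj hac (isOPair_chk _ _ W)
  exact H j z W hW h

theorem of_app {j : F.J} {z : F.Z} {U : Ult B}
    (h : App (Mem U) (cl U (chk R)) (cl U (chk (F.u j))) (cl U (chk (F.v z)))) : F.b j z := by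
  refine F.app_ind (fun _ => True) (fun U a c => a = cl U (chk (F.u j)) →
    c = cl U (chk (F.v z)) → F.b j z) trivial ?_ _ _ h rfl rfl
  intro j' z' W _ h e1 e2
  rwa [← F.uinj (chk_inj e1), ← F.vinj (chk_inj e2)]

/-- the trace of a section on `y` -/
noncomputable def tr (y : Name B) (j : F.J) : Name B :=
  sepN (fun U z => App (Mem U) (cl U (chk R)) (cl U (chk (F.u j))) z) y

theorem mem_tr (y : Name B) (j : F.J) (U : Ult B) (z : Mod U) : Mem U z (cl U (F.tr y j)) ↔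
    App (Mem U) (cl U (chk R)) (cl U (chk (F.u j))) z ∧ Mem U z (cl U y) :=
  (mem_sepN _ _ U z).trans and_comm

theorem ctbl_tr (hB : NB B) (y : Name B) (U : Ult B)
    (hy : Ctbl (Mem U) (cl U (ordN Ordinal.omega0)) (cl U y)) :
    Ctbl (Mem U) (cl U (ordN Ordinal.omega0)) (cl U (Name.mk F.J (F.tr y) fun _ => ⊤)) := by
  have hJ : Nonempty F.J := by
    rw [← mk_ne_zero_iff, F.cJ]
    exact (aleph_pos 4).ne'
  have hZ : Nonempty F.Z := mk_ne_zero_iff.1 ((aleph_pos 1).trans_le F.cZ).ne'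
  obtain ⟨A, hA, f, hf⟩ := hy
  obtain ⟨A, rfl⟩ := cl_surj U A
  obtain ⟨f, rfl⟩ := cl_surj U f
  let P : Ult B → Prop := fun U => Sub (Mem U) (cl U A) (cl U (ordN Ordinal.omega0)) ∧
    IsBij (Mem U) (cl U f) (cl U A) (cl U y)
  have hPc : Clopen P := by unfold P; infer_instance
  obtain ⟨e⟩ : Nonempty (ℕ ≃ Ordinal.omega0.{0}.ToType) := by
    rw [← Cardinal.eq, mk_toType, Ordinal.card_omega0, mk_nat]
  obtain ⟨e'⟩ : Nonempty (Ordinal.omega0.{0}.ToType ≃ ℕ × ℕ) := by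
    rw [← Cardinal.eq, mk_toType, Ordinal.card_omega0]
    simp
  let g : ℕ → F.Z → B := fun n z =>
    bv fun U => P U ∧ App (Mem U) (cl U f) (cl U (oN (e n))) (cl U (chk (F.v z)))
  have hg : ∀ n z (U : Ult B), U.In (g n z) ↔
      P U ∧ App (Mem U) (cl U f) (cl U (oN (e n))) (cl U (chk (F.v z))) := fun n z U => in_bv _ U
  refine dense_elim (fun U => Ctbl (Mem U) (cl U (ordN Ordinal.omega0))
    (cl U (Name.mk F.J (F.tr y) fun _ => ⊤))) ((in_bv P U).2 ⟨hA, hf⟩) fun p hp hp0 => ?_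
  obtain ⟨q, q1, q2, c, c1, c2⟩ := colour hB F.b F.K1 F.K2 F.K3
    (fun n x => x.elim (⨆ z, g n z)ᶜ (g n)) (by
      rintro n (_ | z) (_ | z') h
      · exact (h rfl).elim
      · exact le_bot_iff.1 ((inf_le_inf_left _ (le_iSup (g n) z')).trans compl_inf_eq_bot.le)
      · exact le_bot_iff.1 ((inf_le_inf_right _ (le_iSup (g n) z)).trans inf_compl_eq_bot.le)
      · refine Ult.eq_bot_of fun W hW => ?_
        obtain ⟨h1, h2⟩ := W.inf_iff.1 hW
        obtain ⟨h3, h4⟩ := (hg _ _ _).1 h1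
        exact h (congrArg some (F.vinj (chk_inj (h3.2.1.app_unique h4 ((hg _ _ _).1 h2).2)))))
    hp0 (fun n => by
      rw [iSup_option]
      exact le_top.trans compl_sup_eq_top.ge)
  have key : ∀ t j j' (W : Ult B), W.In (q ⊓ c j t ⊓ c j' t) →
      Sub (Mem W) (cl W (F.tr y j)) (cl W (F.tr y j')) := by
    intro t j j' W hW z hz
    rw [mem_tr] at hz ⊢
    refine ⟨F.app_ind (fun W => W.In (q ⊓ c j t ⊓ c j' t)) (fun U a z =>
      a = cl U (chk (F.u j)) → Mem U z (cl U y) →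
        App (Mem U) (cl U (chk R)) (cl U (chk (F.u j'))) z) hW ?_ _ _ hz.1 rfl hz.2, hz.2⟩
    intro j0 z0 V hV h0 e1 h1
    obtain rfl := F.uinj (chk_inj e1)
    refine F.app ?_ V
    by_contra h2
    have h3 : P V := (in_bv P V).1 (V.mono ((inf_le_left.trans inf_le_left).trans (q2.trans hp)) hV)
    obtain ⟨a, ha, -⟩ := h3.2.2 _ h1
    obtain ⟨a, rfl⟩ := cl_surj V a
    obtain ⟨i, V', ⟨h4, h5, h6⟩, e2⟩ := exists_oN (fun W => W.In (q ⊓ c j0 t ⊓ c j' t) ∧ P W ∧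
      App (Mem W) (cl W f) (cl W a) (cl W (chk (F.v z0)))) ⟨hV, h3, ha⟩
      (h3.1 _ (h3.2.1.app_mem ha).1)
    obtain ⟨n, rfl⟩ := e.surjective i
    rw [e2] at h6
    exact V'.ne_bot (V'.inf h4 ((hg n z0 V').2 ⟨h5, h6⟩)) (c2 j0 j' t n z0 h0 h2)
  obtain ⟨W, hW⟩ := Ult.exists_of_ne_bot q1
  obtain ⟨d, h1, h2⟩ := exists_equinum (F.tr y) (fun s j => q ⊓ c j (e' s)) (fun s j j' =>
    Ult.le_of fun V hV => by
      obtain ⟨h1, h2⟩ := V.inf_iff.1 hV
      exact (cl_eq _ _ _).1 (mod_ext V _ _ fun z =>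
        ⟨key _ j j' V (V.inf h1 (V.inf_iff.1 h2).2) z,
          key _ j' j V (V.inf h2 (V.inf_iff.1 h1).2) z⟩)) (p := q) (fun j => by
      rw [← inf_iSup_eq]
      refine le_inf le_rfl ((c1 j).trans (iSup_le fun t => le_iSup_of_le (e'.symm t) ?_))
      rw [e'.apply_symm_apply]) hW
  refine ⟨W, W.mono q2 hW, d, ?_, h2⟩
  rcases (isSuc_ordN _ W d).1 h1 with h | rfl
  · exact (isOrd_ordN _ W).1 d h
  · exact fun _ h => h

include F in
theorem good (hB : NB B) (hCH : (2 : Cardinal.{0}) ^ ℵ₀ = ℵ_ 1) (U : Ult B) :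
    Good (Mem U) (cl U (chk R)) := by
  have hD : ∀ (U : Ult B) j, Mem U (cl U (chk (F.u j)))
      (cl U (Name.mk F.J (fun j => chk (F.u j)) fun _ => ⊤)) :=
    fun U j => mem_mk (A := fun j => chk (F.u j)) j U.top
  refine ⟨_, _, _, cl U (Name.mk F.J (fun j => chk (F.u j)) fun _ => ⊤),
    cl U (Name.mk F.Z (fun z => chk (F.v z)) fun _ => ⊤), isOmega_omega U, isSuccCard_one hB U,
    isSuccCard_four hB hCH U, fun x => ⟨?_, ?_⟩, fun z => ⟨?_, ?_⟩,
    equinum_four hB F.cJ _ (fun _ _ _ h => F.uinj (chk_inj h)) U,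
    equinum_one hB hCH F.cZ F.cZ' _ (fun _ _ _ h => F.vinj (chk_inj h)) U, fun y hy => ?_,
    fun x x' hx hx' => ?_⟩
  · refine mem_mk_ind (fun _ => True) (fun U x => ∃ z, App (Mem U) (cl U (chk R)) x z) trivial
      (fun j W _ _ => ?_) x
    obtain ⟨z, hz⟩ := F.dom j
    exact ⟨_, F.app hz W⟩
  · rintro ⟨z, hz⟩
    exact F.app_ind (fun _ => True) (fun U x _ =>
      Mem U x (cl U (Name.mk F.J (fun j => chk (F.u j)) fun _ => ⊤))) trivial
      (fun j _ W _ _ => hD W j) x z hz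
  · refine mem_mk_ind (fun _ => True) (fun U z => ∃ x, App (Mem U) (cl U (chk R)) x z) trivial
      (fun z W _ _ => ?_) z
    obtain ⟨j, hj⟩ := F.ran z
    exact ⟨_, F.app hj W⟩
  · rintro ⟨x, hx⟩
    exact F.app_ind (fun _ => True) (fun U _ z =>
      Mem U z (cl U (Name.mk F.Z (fun z => chk (F.v z)) fun _ => ⊤))) trivial
      (fun _ z W _ _ => mem_mk (A := fun z => chk (F.v z)) z W.top) x z hx
  · obtain ⟨y, rfl⟩ := cl_surj U y
    refine ⟨_, F.ctbl_tr hB y U hy, fun t => ⟨?_, ?_⟩⟩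
    · exact mem_mk_ind (fun _ => True) (fun U t => ∃ x,
        Mem U x (cl U (Name.mk F.J (fun j => chk (F.u j)) fun _ => ⊤)) ∧ ∀ z, Mem U z t ↔
          (App (Mem U) (cl U (chk R)) x z ∧ Mem U z (cl U y))) trivial
        (fun j W _ _ => ⟨_, hD W j, F.mem_tr y j W⟩) t
    · rintro ⟨x, hx, ht⟩
      refine mem_mk_ind (fun _ => True) (fun U x => ∀ t, (∀ z, Mem U z t ↔
          (App (Mem U) (cl U (chk R)) x z ∧ Mem U z (cl U y))) →
          Mem U t (cl U (Name.mk F.J (F.tr y) fun _ => ⊤))) trivial (fun j W _ _ t ht => ?_)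
        x hx t ht
      rw [mod_ext W t _ fun z => (ht z).trans (F.mem_tr y j W z).symm]
      exact mem_mk (A := F.tr y) j W.top
  · refine mem_mk_ind (fun _ => True) (fun U x => ∀ x',
      Mem U x' (cl U (Name.mk F.J (fun j => chk (F.u j)) fun _ => ⊤)) →
      (∀ z, App (Mem U) (cl U (chk R)) x z ↔ App (Mem U) (cl U (chk R)) x' z) → x = x') trivial
      (fun j W _ _ => ?_) x hx x' hx'
    refine mem_mk_ind (fun _ => True) (fun U x' => (∀ z,
      App (Mem U) (cl U (chk R)) (cl U (chk (F.u j))) z ↔ App (Mem U) (cl U (chk R)) x' z) →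
      cl U (chk (F.u j)) = x') trivial fun j' V _ _ h => ?_
    rw [F.dist j j' fun z =>
      ⟨fun h1 => F.of_app ((h _).1 (F.app h1 V)), fun h1 => F.of_app ((h _).2 (F.app h1 V))⟩]

end Fam

theorem good_of_fam (hCH : (2 : Cardinal.{0}) ^ ℵ₀ = ℵ_ 1)
    (hG : (2 : Cardinal.{0}) ^ (ℵ_ 2 : Cardinal.{0}) = ℵ_ 3) {R : ZFSet.{0}} (F : Fam R)
    (U : Ult (RO Nm)) : Good (Mem U) (cl U (chk R)) :=
  F.good (nb_nm hCH hG) hCH U

end Pool.Agent.Lib.MP_0a8963_lc
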