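import Pool.Agent.Lib.MP_0a8963_lc.F.Tree

/-!
The properties of the regular open algebra of Namba forcing that are used.
-/

namespace Pool.Agent.Lib.MP_0a8963_lc

open Cardinal Pool.Agent.Lib.MP_5d9fac_lc

/-- The package of properties of the Boolean algebra. -/
structure NB (B : Type) [CompleteBooleanAlgebra B] : Prop where
  dist : ∀ {X : Type}, #X ≤ ℵ_ 1 → ∀ (m : ℕ → X → B) (p : B), p ≠ ⊥ → (∀ n, p ≤ ⨆ x, m n x) →
    ∃ q, q ≠ ⊥ ∧ q ≤ p ∧ ∃ s : ℕ → X, ∀ n, q ≤ m n (s n)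
  cover : ∀ {X : Type} (m : ℕ → X → B) (p : B), p ≠ ⊥ → (∀ n, p ≤ ⨆ x, m n x) →
    ∃ q, q ≠ ⊥ ∧ q ≤ p ∧ ∃ Y : Set X, #Y ≤ ℵ_ 2 ∧ ∀ n, q ≤ ⨆ x, ⨆ _ : x ∈ Y, m n x
  seq : ∃ h : ℕ → W2 → B, (∀ n, ⊤ ≤ ⨆ a, h n a) ∧ (∀ n a b, a ≠ b → h n a ⊓ h n b = ⊥) ∧
    ∀ a, ⊤ ≤ ⨆ n, ⨆ b, ⨆ _ : a ≤ b, h n b
  small : ∃ D : Set B, #D ≤ ℵ_ 3 ∧ ∀ b, b ≠ ⊥ → ∃ d ∈ D, d ≠ ⊥ ∧ d ≤ b

theorem mk_list_W2 : #(List W2) = ℵ_ 2 := by
  have : Infinite W2 := by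
    rw [infinite_iff, mk_W2]
    exact aleph0_le_aleph 2
  rw [mk_list_eq_mk, mk_W2]

theorem lav_univ : Lav Set.univ :=
  ⟨trivial, fun _ _ _ => trivial, fun _ _ => by simp⟩

theorem fusion_ro {X : Type} (m : ℕ → X → RO Nm) (p : RO Nm) (hp : p ≠ ⊥)
    (hm : ∀ n, p ≤ ⨆ x, m n x) : ∃ x : List W2 → X, ∀ S, Lav S → ∃ q : RO Nm, q ≠ ⊥ ∧ q ≤ p ∧
      ∀ n (c : RO Nm), (∀ σ ∈ S, σ.length = n → m n (x σ) ≤ c) → q ≤ c := by
  obtain ⟨p0, hp0⟩ := RO.exists_emb_le hp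
  obtain ⟨x, hx⟩ := fusion (p := p0) (D := fun n x q => RO.emb q ≤ m n x)
    (fun n x q r h hr => (RO.emb_mono hr).trans h) (fun n r hr => by
      obtain ⟨x, q, h1, h2⟩ := RO.exists_of_le_iSup (((RO.emb_mono hr).trans hp0).trans (hm n))
      exact ⟨q, h1, x, h2⟩)
  refine ⟨x, fun S hS => ?_⟩
  obtain ⟨q, h1, h2⟩ := hx S hS
  refine ⟨RO.emb q, RO.emb_ne_bot q, (RO.emb_mono h1).trans hp0, fun n c hc =>
    RO.le_of_dense fun p' hp' => ?_⟩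
  obtain ⟨r, h3, h4⟩ := RO.exists_of_emb_le hp'
  obtain ⟨σ, h5, h6, r', h7, h8⟩ := h2 r h4 n
  exact ⟨r', h7.trans h3, h8.trans (hc σ h5 h6)⟩

theorem mk_Iio_W2 (a : W2) : #(Set.Iio a) ≤ ℵ_ 1 := by
  refine le_aleph_one_of_ne (ne_of_lt ?_)
  have h : (Ordinal.omega.{0} 2) = (ℵ_ 2 : Cardinal.{0}).ord := (ord_aleph 2).symm
  have := mk_Iio_lt (α := W2) a (by rw [mk_W2, Ordinal.type_toType, h])
  rwa [mk_W2] at this

theorem nb_nm (hCH : (2 : Cardinal.{0}) ^ ℵ₀ = ℵ_ 1)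
    (hG : (2 : Cardinal.{0}) ^ (ℵ_ 2 : Cardinal.{0}) = ℵ_ 3) : NB (RO Nm) where
  dist := by
    intro X hX m p hp hm
    obtain ⟨x, hx⟩ := fusion_ro m p hp hm
    obtain ⟨s, S, h1, h2⟩ := kernel (I := ℕ → X) (by
      rw [← power_def, mk_nat]
      refine (power_le_power_right hX).trans ?_
      rw [← hCH, ← power_mul, aleph0_mul_aleph0]) (fun s => {σ | x σ = s σ.length})
      fun g => ⟨fun n => x (br g n), fun n => by simp [length_br]⟩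
    obtain ⟨q, h3, h4, h5⟩ := hx S h2
    refine ⟨q, h3, h4, s, fun n => h5 n _ fun σ h6 h7 => ?_⟩
    have h8 : x σ = s σ.length := h1 h6
    rw [h8, h7]
  cover := by
    intro X m p hp hm
    obtain ⟨x, hx⟩ := fusion_ro m p hp hm
    obtain ⟨q, h3, h4, h5⟩ := hx _ lav_univ
    exact ⟨q, h3, h4, Set.range x, mk_range_le.trans mk_list_W2.le, fun n => h5 n _ fun σ _ _ =>
      le_iSup₂_of_le (x σ) ⟨σ, rfl⟩ le_rfl⟩
  seq := by
    let T : ℕ → W2 → Set Nm := fun n a => {q | ∀ ν ∈ q.T, ∀ b, ν[n]? = some b → b = a}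
    have hT : ∀ (q : Nm) (μ : List W2) (hμ : μ ∈ q.T) n a, μ[n]? = some a →
        RO.emb (q.res μ hμ) ≤ ⨆ s : T n a, RO.emb s.1 := by
      intro q μ hμ n a ha
      refine le_iSup (fun s : T n a => RO.emb s.1) ⟨_, ?_⟩
      rintro ν ⟨-, ⟨ρ, rfl⟩ | ⟨ρ, rfl⟩⟩ b hb
      · rw [List.getElem?_append_left (List.getElem?_eq_some_iff.1 hb).1, hb] at ha
        exact Option.some.inj ha
      · rw [List.getElem?_append_left (List.getElem?_eq_some_iff.1 ha).1, ha] at hb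
        exact (Option.some.inj hb).symm
    refine ⟨fun n a => ⨆ s : T n a, RO.emb s.1, fun n => RO.le_of_dense fun q _ => ?_,
      fun n a b hab => ?_, fun a => RO.le_of_dense fun q _ => ?_⟩
    · obtain ⟨μ, h1, -, h2⟩ := q.exists_long q.nil_mem (n + 1)
      exact ⟨_, q.res_le μ h1, le_iSup_of_le μ[n] (hT q μ h1 n _ (List.getElem?_eq_getElem h2))⟩
    · by_contra hc
      obtain ⟨q, hq⟩ := RO.exists_emb_le hc
      obtain ⟨r, h1, s, hs, h2⟩ := RO.le_iSup_iff.1 (hq.trans inf_le_left) q le_rfl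
      obtain ⟨r', h3, s', hs', h4⟩ := RO.le_iSup_iff.1 (hq.trans inf_le_right) r h1
      obtain ⟨μ, h5, -, h6⟩ := r'.exists_long r'.nil_mem (n + 1)
      have h7 := List.getElem?_eq_getElem (l := μ) (i := n) h6
      exact hab ((hs μ (h2 (h3 h5)) _ h7).symm.trans (hs' μ (h4 h5) _ h7))
    · obtain ⟨ρ, -, -, h2⟩ := q.split [] q.nil_mem
      have h3 : ∃ c, ρ ++ [c] ∈ q.T ∧ a ≤ c := by
        by_contra hc
        push Not at hc
        have h4 : #{a : W2 | ρ ++ [a] ∈ q.T} ≤ #(Set.Iio a) := mk_le_mk_of_subset hc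
        rw [h2] at h4
        exact (h4.trans (mk_Iio_W2 a)).not_gt aleph_one_lt_two
      obtain ⟨c, h4, h5⟩ := h3
      exact ⟨_, q.res_le _ h4, le_iSup_of_le ρ.length (le_iSup₂_of_le c h5
        (hT q _ h4 _ c (by simp)))⟩
  small := by
    refine ⟨Set.range RO.emb, mk_range_le.trans ?_, fun b hb => ?_⟩
    · have h1 : Function.Injective Nm.T := by
        rintro ⟨T, _, _, _⟩ ⟨T', _, _, _⟩ h
        obtain rfl : T = T' := h
        rfl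
      refine (mk_le_of_injective h1).trans ?_
      rw [mk_set, mk_list_W2, hG]
    · obtain ⟨p, hp⟩ := RO.exists_emb_le hb
      exact ⟨_, ⟨p, rfl⟩, RO.emb_ne_bot p, hp⟩

end Pool.Agent.Lib.MP_0a8963_lc
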