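import Pool.Agent.Lib.MP_0a8963_lc.F.Defs

/-!
Fusion and the kernel lemma for Miller-type Namba forcing.
-/

namespace Pool.Agent.Lib.MP_0a8963_lc

open Cardinal

theorem mk_W2 : #W2 = ℵ_ 2 := by
  rw [mk_toType, Ordinal.card_omega]

theorem aleph_one_lt_two : (ℵ_ 1 : Cardinal.{0}) < ℵ_ 2 := aleph_lt_aleph.2 one_lt_two

theorem le_aleph_one_of_ne {A : Set W2} (h : #A ≠ ℵ_ 2) : #A ≤ ℵ_ 1 := by
  have h1 : #A < ℵ_ 2 := lt_of_le_of_ne ((mk_set_le A).trans mk_W2.le) h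
  have h2 : (ℵ_ 2 : Cardinal.{0}) = Order.succ (ℵ_ 1) := by
    rw [succ_aleph, one_add_one_eq_two]
  rwa [h2, Order.lt_succ_iff] at h1

theorem exists_notMem {A : Set W2} (h : #A ≤ ℵ_ 1) : ∃ c, c ∉ A := by
  by_contra hc
  push Not at hc
  have : A = Set.univ := Set.eq_univ_of_forall hc
  rw [this, mk_univ, mk_W2] at h
  exact h.not_gt aleph_one_lt_two

instance : Nonempty W2 := by
  obtain ⟨c, -⟩ := exists_notMem (A := ∅) (by simp)
  exact ⟨c⟩

namespace Nm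

theorem le_def {p q : Nm} : p ≤ q ↔ ∀ ν, ν ∈ p.T → ν ∈ q.T := Iff.rfl

theorem nil_mem (p : Nm) : [] ∈ p.T := by
  obtain ⟨ν, hν⟩ := p.ne
  exact p.down _ _ List.nil_prefix hν

theorem exists_long (p : Nm) {η : List W2} (h : η ∈ p.T) (n : ℕ) :
    ∃ ν ∈ p.T, η <+: ν ∧ n ≤ ν.length := by
  induction n with
  | zero => exact ⟨η, h, List.prefix_rfl, Nat.zero_le _⟩
  | succ n ih =>
    obtain ⟨ν, h1, h2, h3⟩ := ih
    obtain ⟨ρ, h4, h5, h6⟩ := p.split ν h1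
    have : Nonempty {a : W2 | ρ ++ [a] ∈ p.T} := by
      rw [← mk_ne_zero_iff, h6]
      exact (aleph_pos 2).ne'
    obtain ⟨a, ha⟩ := this
    refine ⟨ρ ++ [a], ha, (h2.trans h5).trans (List.prefix_append _ _), ?_⟩
    have := h5.length_le
    simp only [List.length_append, List.length_singleton]
    omega

/-- the nodes comparable with `η` -/
def res (p : Nm) (η : List W2) (h : η ∈ p.T) : Nm where
  T := {ν | ν ∈ p.T ∧ (ν <+: η ∨ η <+: ν)}
  ne := ⟨η, h, Or.inl List.prefix_rfl⟩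
  down := by
    rintro μ ν hμ ⟨h1, h2 | h2⟩
    · exact ⟨p.down _ _ hμ h1, Or.inl (hμ.trans h2)⟩
    · exact ⟨p.down _ _ hμ h1, List.prefix_or_prefix_of_prefix hμ h2⟩
  split := by
    rintro ν ⟨h1, h2⟩
    obtain ⟨μ, h3, h4, h5⟩ : ∃ μ ∈ p.T, ν <+: μ ∧ η <+: μ := by
      rcases h2 with h2 | h2
      · exact ⟨η, h, h2, List.prefix_rfl⟩
      · exact ⟨ν, h1, List.prefix_rfl, h2⟩
    obtain ⟨ρ, h6, h7, h8⟩ := p.split μ h3
    refine ⟨ρ, ⟨h6, Or.inr (h5.trans h7)⟩, h4.trans h7, ?_⟩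
    rw [← h8]
    congr 2
    ext a
    exact ⟨fun h => h.1, fun h => ⟨h, Or.inr ((h5.trans h7).trans (List.prefix_append _ _))⟩⟩

theorem res_le (p : Nm) (η : List W2) (h : η ∈ p.T) : p.res η h ≤ p := fun _ hν => hν.1

end Nm

/-- a node of a fusion system -/
structure Nd (X : Type) where
  q : Nm
  η : List W2
  x : X
  e : W2 → W2
  mem : η ∈ q.T
  inj : Function.Injective e
  succ : ∀ a, η ++ [e a] ∈ q.T

/-- Laver type subtrees of the index tree (lists grow on the left) -/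
def Lav (S : Set (List W2)) : Prop :=
  [] ∈ S ∧ (∀ a σ, a :: σ ∈ S → σ ∈ S) ∧ ∀ σ ∈ S, #{a : W2 | a :: σ ∈ S} = ℵ_ 2

theorem Lav.suffix {S : Set (List W2)} (h : Lav S) {σ τ : List W2} (hs : σ <:+ τ) (hτ : τ ∈ S) :
    σ ∈ S := by
  obtain ⟨ρ, rfl⟩ := hs
  induction ρ with
  | nil => exact hτ
  | cons a ρ ih => exact ih (h.2.1 a _ hτ)

theorem exists_cons_suffix {σ τ : List W2} (h : σ <:+ τ) (hne : σ ≠ τ) : ∃ c, c :: σ <:+ τ := by
  obtain ⟨ρ, rfl⟩ := h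
  rcases List.eq_nil_or_concat ρ with rfl | ⟨ρ', c, rfl⟩
  · exact (hne rfl).elim
  · exact ⟨c, ρ', by simp⟩

theorem snoc_inj {η ν : List W2} {a b : W2} (h1 : η ++ [a] <+: ν) (h2 : η ++ [b] <+: ν) :
    a = b := by
  have := (List.prefix_of_prefix_length_le h1 h2 (by simp)).eq_of_length (by simp)
  simpa using this

section Fusion

variable {X : Type} {p : Nm} {D : ℕ → X → Nm → Prop}

theorem exists_nd (hd : ∀ n r, r ≤ p → ∃ q, q ≤ r ∧ ∃ x, D n x q) (n : ℕ) (r : Nm) (hr : r ≤ p) (μ : List W2)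
    (hμ : ∀ ν ∈ r.T, ν <+: μ ∨ μ <+: ν) :
    ∃ N : Nd X, N.q ≤ r ∧ D n N.x N.q ∧ μ <+: N.η := by
  obtain ⟨q, h1, x, h2⟩ := hd n r hr
  obtain ⟨ν, h3, -, h4⟩ := q.exists_long q.nil_mem μ.length
  have h5 : μ <+: ν := by
    rcases hμ ν (h1 h3) with h | h
    · rw [h.eq_of_length_le h4]
    · exact h
  obtain ⟨ρ, h6, h7, h8⟩ := q.split ν h3
  rw [← mk_W2] at h8
  obtain ⟨e⟩ := Cardinal.eq.1 h8
  exact ⟨⟨q, ρ, x, fun a => (e.symm a).1, h6,
    fun a b h => e.symm.injective (Subtype.ext h), fun a => (e.symm a).2⟩, h1, h2, h5.trans h7⟩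

theorem exists_system (hd : ∀ n r, r ≤ p → ∃ q, q ≤ r ∧ ∃ x, D n x q) :
    ∃ N : List W2 → Nd X, (∀ σ, (N σ).q ≤ p) ∧ (∀ σ, D σ.length (N σ).x (N σ).q) ∧
      (∀ a σ, (N (a :: σ)).q ≤ (N σ).q) ∧
      ∀ a σ, (N σ).η ++ [(N σ).e a] <+: (N (a :: σ)).η := by
  obtain ⟨N0, h1, h2, -⟩ := exists_nd hd 0 p le_rfl [] fun _ _ => Or.inr List.nil_prefix
  have step : ∀ (n : ℕ) (N : {N : Nd X // N.q ≤ p}) (a : W2), ∃ N' : {N : Nd X // N.q ≤ p},
      N'.1.q ≤ N.1.q ∧ D n N'.1.x N'.1.q ∧ N.1.η ++ [N.1.e a] <+: N'.1.η := by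
    intro n N a
    obtain ⟨N', h3, h4, h5⟩ := exists_nd hd n (N.1.q.res _ (N.1.succ a))
      ((Nm.res_le _ _ _).trans N.2) _ fun ν hν => hν.2
    have h6 := h3.trans (Nm.res_le _ _ _)
    exact ⟨⟨N', h6.trans N.2⟩, h6, h4, h5⟩
  choose nx hn1 hn2 hn3 using step
  let F : List W2 → {N : Nd X // N.q ≤ p} := fun σ =>
    List.rec ⟨N0, h1⟩ (fun a σ N => nx (σ.length + 1) N a) σ
  refine ⟨fun σ => (F σ).1, fun σ => (F σ).2, fun σ => ?_, fun a σ => hn1 _ _ _,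
    fun a σ => hn3 _ _ _⟩
  cases σ with
  | nil => exact h2
  | cons a σ => exact hn2 _ _ _

theorem fusion (hm : ∀ n x q r, D n x q → r ≤ q → D n x r)
    (hd : ∀ n r, r ≤ p → ∃ q, q ≤ r ∧ ∃ x, D n x q) :
    ∃ x : List W2 → X, ∀ S, Lav S → ∃ q, q ≤ p ∧ ∀ r, r ≤ q → ∀ n, ∃ σ ∈ S, σ.length = n ∧
      ∃ r', r' ≤ r ∧ D n (x σ) r' := by
  obtain ⟨N, h1, h2, h3, h4⟩ := exists_system hd
  have hA : ∀ ρ σ, (N σ).η <+: (N (ρ ++ σ)).η ∧ (N (ρ ++ σ)).q ≤ (N σ).q := by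
    intro ρ σ
    induction ρ with
    | nil => exact ⟨List.prefix_rfl, le_rfl⟩
    | cons a ρ ih =>
      exact ⟨ih.1.trans ((List.prefix_append _ _).trans (h4 a _)), (h3 a _).trans ih.2⟩
  have hA1 : ∀ {σ τ}, σ <:+ τ → (N σ).η <+: (N τ).η := by
    rintro σ _ ⟨ρ, rfl⟩
    exact (hA ρ σ).1
  have hA2 : ∀ {σ τ}, σ <:+ τ → (N τ).q ≤ (N σ).q := by
    rintro σ _ ⟨ρ, rfl⟩
    exact (hA ρ σ).2
  have hB : ∀ σ τ, (N σ).η <+: (N τ).η → σ <:+ τ := by
    intro σ τ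
    induction σ with
    | nil => exact fun _ => List.nil_suffix
    | cons a σ ih =>
      intro h
      have h5 := (h4 a σ).trans h
      obtain ⟨c, hc⟩ := exists_cons_suffix (ih ((List.prefix_append _ _).trans h5)) (by
        rintro rfl
        have := h5.length_le
        simp at this)
      rw [(N σ).inj (snoc_inj h5 ((h4 c σ).trans (hA1 hc)))]
      exact hc
  refine ⟨fun σ => (N σ).x, fun S hS => ?_⟩
  let q : Nm :=
    { T := {ν | ∃ σ ∈ S, ν <+: (N σ).η}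
      ne := ⟨[], [], hS.1, List.nil_prefix⟩
      down := fun μ ν h ⟨σ, h5, h6⟩ => ⟨σ, h5, h.trans h6⟩
      split := by
        rintro ν ⟨σ, h5, h6⟩
        refine ⟨(N σ).η, ⟨σ, h5, List.prefix_rfl⟩, h6,
          le_antisymm ((mk_set_le _).trans mk_W2.le) ?_⟩
        rw [← hS.2.2 σ h5, ← mk_image_eq (N σ).inj]
        refine mk_le_mk_of_subset ?_
        rintro _ ⟨a, ha, rfl⟩
        exact ⟨a :: σ, ha, h4 a σ⟩ }
  have hL : ∀ σ ν, ν ∈ q.T → (N σ).η <+: ν → (N σ).η.length < ν.length →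
      ∃ c, c :: σ ∈ S ∧ (N σ).η ++ [(N σ).e c] <+: ν ∧
        ((N (c :: σ)).η.length ≤ ν.length → (N (c :: σ)).η <+: ν) := by
    rintro σ ν ⟨τ, h5, h6⟩ h7 h8
    obtain ⟨c, hc⟩ := exists_cons_suffix (hB σ τ (h7.trans h6)) (by
      rintro rfl
      exact h8.not_ge h6.length_le)
    refine ⟨c, hS.suffix hc h5, List.prefix_of_prefix_length_le ((h4 c σ).trans (hA1 hc)) h6 ?_,
      List.prefix_of_prefix_length_le (hA1 hc) h6⟩
    simp only [List.length_append, List.length_singleton]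
    omega
  refine ⟨q, fun ν ⟨σ, _, h6⟩ => h1 σ ((N σ).q.down _ _ h6 (N σ).mem), fun r hr n => ?_⟩
  have hC : ∃ σ ∈ S, σ.length = n ∧ (N σ).η ∈ r.T := by
    induction n with
    | zero =>
      obtain ⟨ν, h5, -, h6⟩ := r.exists_long r.nil_mem (N []).η.length
      obtain ⟨τ, -, h7⟩ := hr h5
      exact ⟨[], hS.1, rfl, r.down _ _
        (List.prefix_of_prefix_length_le (hA1 List.nil_suffix) h7 h6) h5⟩
    | succ n ih =>
      obtain ⟨σ, h5, h6, h7⟩ := ih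
      obtain ⟨ν, h8, h9, h10⟩ := r.exists_long h7 ((N σ).η.length + 1)
      obtain ⟨c, hc1, hc2, -⟩ := hL σ ν (hr h8) h9 h10
      obtain ⟨ν', h11, h12, h13⟩ := r.exists_long h8 (N (c :: σ)).η.length
      obtain ⟨c', -, hc3, hc4⟩ := hL σ ν' (hr h11) (h9.trans h12)
        (lt_of_lt_of_le h10 h12.length_le)
      obtain rfl := (N σ).inj (snoc_inj (hc2.trans h12) hc3)
      exact ⟨c :: σ, hc1, by simp [h6], r.down _ _ (hc4 h13) h11⟩
  obtain ⟨σ, h5, rfl, h7⟩ := hC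
  refine ⟨σ, h5, rfl, r.res _ h7, r.res_le _ _, hm _ _ _ _ (h2 σ) ?_⟩
  rintro ν ⟨h8, h9 | h9⟩
  · exact (N σ).q.down _ _ h9 (N σ).mem
  · obtain ⟨τ, -, h10⟩ := hr h8
    exact (N σ).q.down _ _ h10 (hA2 (hB σ τ (h9.trans h10)) (N τ).mem)

end Fusion

/-- initial segments of a branch of the index tree -/
def br (g : ℕ → W2) : ℕ → List W2
  | 0 => []
  | n + 1 => g n :: br g n

theorem length_br (g : ℕ → W2) (n : ℕ) : (br g n).length = n := by
  induction n with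
  | zero => rfl
  | succ n ih => simp [br, ih]

/-- the entry at distance `k` from the root -/
noncomputable def pos (k : ℕ) : List W2 → W2
  | [] => Classical.arbitrary _
  | a :: τ => if τ.length = k then a else pos k τ

theorem pos_br (g : ℕ → W2) {k n : ℕ} (h : k < n) : pos k (br g n) = g k := by
  induction n with
  | zero => omega
  | succ n ih =>
    rw [br, pos, length_br]
    split_ifs with h1
    · rw [h1]
    · exact ih (by omega)

theorem kernel {I : Type} (hI : #I ≤ ℵ_ 1) (G : I → Set (List W2))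
    (hG : ∀ g : ℕ → W2, ∃ i, ∀ n, br g n ∈ G i) : ∃ i S, S ⊆ G i ∧ Lav S := by
  let W : I → List W2 → Prop := fun i σ => ∃ A : List W2 → Set W2, (∀ τ, #(A τ) ≤ ℵ_ 1) ∧
    ∀ g, br g σ.length = σ → (∀ n, σ.length ≤ n → g n ∉ A (br g n)) → ∃ n, br g n ∉ G i
  have h1 : ∀ i σ, ¬ W i σ → σ ∈ G i := by
    intro i σ h
    by_contra hc
    exact h ⟨fun _ => ∅, by simp, fun g hg _ => ⟨σ.length, by rwa [hg]⟩⟩
  have h2 : ∀ i σ, ¬ W i σ → #{a : W2 | ¬ W i (a :: σ)} = ℵ_ 2 := by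
    intro i σ h
    by_contra hc
    have h3 : ∀ a, ∃ A : List W2 → Set W2, (∀ τ, #(A τ) ≤ ℵ_ 1) ∧ (W i (a :: σ) →
        ∀ g, br g (a :: σ).length = a :: σ →
          (∀ n, (a :: σ).length ≤ n → g n ∉ A (br g n)) → ∃ n, br g n ∉ G i) := by
      intro a
      by_cases hw : W i (a :: σ)
      · obtain ⟨A, h4, h5⟩ := hw
        exact ⟨A, h4, fun _ => h5⟩
      · exact ⟨fun _ => ∅, by simp, fun h => (hw h).elim⟩
    choose A hA1 hA2 using h3
    refine h ⟨fun τ => {a : W2 | ¬ W i (a :: σ)} ∪ A (pos σ.length τ) τ, fun τ =>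
      (mk_union_le _ _).trans (add_le_of_le (aleph0_le_aleph 1) (le_aleph_one_of_ne hc)
        (hA1 _ _)), fun g hg hav => ?_⟩
    refine hA2 (g σ.length) (by
      by_contra h4
      exact hav _ le_rfl (Or.inl h4)) g (by rw [List.length_cons, br, hg]) fun n hn h4 => ?_
    rw [List.length_cons] at hn
    refine hav n (by omega) (Or.inr ?_)
    rwa [pos_br g (by omega)]
  have h3 : ∃ i, ¬ W i [] := by
    by_contra hc
    push Not at hc
    choose A hA1 hA2 using hc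
    have h4 : ∀ τ, ∃ c, c ∉ ⋃ i, A i τ := fun τ => exists_notMem
      ((mk_iUnion_le _).trans ((mul_le_mul' hI (ciSup_le' fun i => hA1 i τ)).trans
        (mul_eq_self (aleph0_le_aleph 1)).le))
    choose c hc using h4
    let s : ℕ → List W2 := fun n => Nat.rec [] (fun _ τ => c τ :: τ) n
    have h5 : ∀ n, br (fun n => c (s n)) n = s n := by
      intro n
      induction n with
      | zero => rfl
      | succ n ih => rw [br, ih]
    obtain ⟨i, hi⟩ := hG fun n => c (s n)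
    obtain ⟨n, hn⟩ := hA2 i (fun n => c (s n)) rfl fun n _ h => by
      rw [h5] at h
      exact hc _ (Set.mem_iUnion.2 ⟨i, h⟩)
    exact hn (hi n)
  obtain ⟨i, hi⟩ := h3
  refine ⟨i, {σ | ∀ τ, τ <:+ σ → ¬ W i τ}, fun σ h => h1 i σ (h σ List.suffix_rfl), ?_,
    fun a σ h τ hτ => h τ (hτ.trans (List.suffix_cons a σ)), fun σ h => ?_⟩
  · intro τ hτ
    rwa [List.suffix_nil.1 hτ]
  · rw [← h2 i σ (h σ List.suffix_rfl)]
    congr 2
    ext a
    refine ⟨fun h4 => h4 _ List.suffix_rfl, fun h4 τ hτ => ?_⟩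
    rcases List.suffix_cons_iff.1 hτ with rfl | h5
    · exact h4
    · exact h τ h5

end Pool.Agent.Lib.MP_0a8963_lc
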